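import Pool.Agent.H308R2.ZS.Stubs

set_option autoImplicit false

open scoped ComplexConjugate Kronecker Matrix.Norms.L2Operator ComplexOrder
open Polynomial

namespace Pool.Agent.H308R2.ZS.T_MULT

open Pool.Agent.H923R2.FP Pool.Agent.H923R2.FZ Pool.Agent.H308R2.ZS

section gen

variable {ι : Type} [Fintype ι] [DecidableEq ι]

/-- the combination of the derivatives of the characteristic polynomial -/
noncomputable def qq {R : Type} [CommRing R] (r s : ℕ) (A : Matrix ι ι R) : R[X] :=
  ∑ j ∈ Finset.Icc 1 r, C (((s + 1 : ℕ) : R) ^ j) * derivative^[j] A.charpoly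

/-- the test -/
noncomputable def dd {R : Type} [CommRing R] (r s : ℕ) (A : Matrix ι ι R) : R :=
  Matrix.det (aeval A (qq r s A))

theorem qq_map {R S : Type} [CommRing R] [CommRing S] (f : R →+* S) (r s : ℕ)
    (A : Matrix ι ι R) : (qq r s A).map f = qq r s (A.map f) := by
  unfold qq
  rw [Polynomial.map_sum]
  refine Finset.sum_congr rfl fun j _ => ?_
  rw [Polynomial.map_mul, Polynomial.map_C, map_pow, map_natCast, ← iterate_derivative_map,
    Matrix.charpoly_map]

theorem dd_map {R S : Type} [CommRing R] [CommRing S] (f : R →+* S) (r s : ℕ)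
    (A : Matrix ι ι R) : f (dd r s A) = dd r s (A.map f) := by
  unfold dd
  rw [RingHom.map_det]
  congr 1
  have h := map_aeval_eq_aeval_map (φ := f) (ψ := f.mapMatrix (m := ι)) (by
    ext a i j
    simp only [RingHom.comp_apply, RingHom.mapMatrix_apply, Matrix.map_apply,
      Matrix.algebraMap_matrix_apply]
    split_ifs <;> simp) (qq r s A) A
  rw [h, qq_map]
  rfl

theorem dd_cont (r s : ℕ) : Continuous (fun A : Matrix ι ι ℂ => dd r s A) := by
  have h : (fun A : Matrix ι ι ℂ => dd r s A) = fun A : Matrix ι ι ℂ =>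
      MvPolynomial.eval (fun p : ι × ι => A p.1 p.2)
        (dd r s (Matrix.mvPolynomialX ι ι ℂ)) := by
    funext A
    rw [dd_map]
    congr 1
    exact (Matrix.mvPolynomialX_mapMatrix_eval A).symm
  rw [h]
  refine (MvPolynomial.continuous_eval _).comp ?_
  refine continuous_pi fun p => ?_
  exact Continuous.matrix_elem continuous_id p.1 p.2

theorem dd_zero [Nonempty ι] (r s : ℕ) (A : Matrix ι ι ℂ) :
    dd r s A = 0 ↔ ∃ μ : ℂ, A.charpoly.IsRoot μ ∧ (qq r s A).IsRoot μ := by
  have h1 : dd r s A = 0 ↔ (0 : ℂ) ∈ spectrum ℂ (aeval A (qq r s A)) := by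
    rw [spectrum.zero_mem_iff, Matrix.isUnit_iff_isUnit_det, isUnit_iff_ne_zero, not_not]
    rfl
  rw [h1, spectrum.map_polynomial_aeval_of_nonempty A _
    (spectrum.nonempty_of_isAlgClosed_of_finiteDimensional ℂ A)]
  constructor
  · rintro ⟨μ, hμ, h2⟩
    exact ⟨μ, Matrix.mem_spectrum_iff_isRoot_charpoly.1 hμ, h2⟩
  · rintro ⟨μ, hμ, h2⟩
    exact ⟨μ, Matrix.mem_spectrum_iff_isRoot_charpoly.2 hμ, h2⟩

theorem qq_eval (r s : ℕ) (A : Matrix ι ι ℂ) (μ : ℂ) :
    (qq r s A).eval μ = (∑ j ∈ Finset.Icc 1 r,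
      C ((derivative^[j] A.charpoly).eval μ) * X ^ j : ℂ[X]).eval (((s + 1 : ℕ) : ℂ)) := by
  unfold qq
  rw [eval_finsetSum, eval_finsetSum]
  refine Finset.sum_congr rfl fun j _ => ?_
  simp only [eval_mul, eval_C, eval_pow, eval_X]
  ring

theorem all_zero [Nonempty ι] (r : ℕ) (A : Matrix ι ι ℂ)
    (h : ∀ s < Fintype.card ι * r + 1, dd r s A = 0) :
    ∃ μ : ℂ, r < A.charpoly.rootMultiplicity μ := by
  classical
  have hp : A.charpoly ≠ 0 := (Matrix.charpoly_monic A).ne_zero
  have hdeg : A.charpoly.natDegree = Fintype.card ι := Matrix.charpoly_natDegree_eq_dim A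
  choose! m hm1 hm2 using fun s hs => (dd_zero r s A).1 (h s hs)
  obtain ⟨μ, hμ, hcard⟩ := Finset.exists_lt_card_fiber_of_mul_lt_card_of_maps_to
    (s := Finset.range (Fintype.card ι * r + 1)) (t := A.charpoly.roots.toFinset) (f := m) (n := r)
    (by
      intro s hs
      rw [Multiset.mem_toFinset, mem_roots hp]
      exact hm1 s (Finset.mem_range.1 hs))
    (by
      rw [Finset.card_range]
      have h1 : A.charpoly.roots.toFinset.card ≤ Fintype.card ι := by
        rw [← hdeg]
        exact (Multiset.toFinset_card_le _).trans (card_roots' _)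
      have := Nat.mul_le_mul_right r h1
      omega)
  refine ⟨μ, ?_⟩
  rw [lt_rootMultiplicity_iff_isRoot_iterate_derivative hp]
  have hQ : (∑ j ∈ Finset.Icc 1 r,
      C ((derivative^[j] A.charpoly).eval μ) * X ^ j : ℂ[X]) = 0 := by
    refine eq_zero_of_natDegree_lt_card_of_eval_eq_zero' _
      ((Finset.filter (fun s => m s = μ)
        (Finset.range (Fintype.card ι * r + 1))).image (fun s : ℕ => ((s + 1 : ℕ) : ℂ))) ?_ ?_
    · intro z hz
      obtain ⟨s, hs, rfl⟩ := Finset.mem_image.1 hz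
      rw [Finset.mem_filter, Finset.mem_range] at hs
      rw [← qq_eval, ← hs.2]
      exact hm2 s hs.1
    · rw [Finset.card_image_of_injective _ (by
        intro a b hab
        have : ((a + 1 : ℕ) : ℂ) = ((b + 1 : ℕ) : ℂ) := hab
        have := Nat.cast_injective this
        omega)]
      refine lt_of_le_of_lt ?_ hcard
      refine natDegree_sum_le_of_forall_le _ _ fun j hj => ?_
      exact (natDegree_C_mul_X_pow_le _ _).trans (Finset.mem_Icc.1 hj).2
  intro j hj
  rcases Nat.eq_zero_or_pos j with h0 | h0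
  · subst h0
    rw [Multiset.mem_toFinset, mem_roots hp] at hμ
    exact hμ
  · have h1 := congrArg (fun p : ℂ[X] => p.coeff j) hQ
    simp only [finsetSum_coeff, coeff_C_mul, coeff_X_pow, coeff_zero, mul_ite, mul_one,
      mul_zero] at h1
    rw [Finset.sum_ite_eq, if_pos (Finset.mem_Icc.2 ⟨h0, hj⟩)] at h1
    exact h1

theorem zero_of_mult [Nonempty ι] (r : ℕ) (A : Matrix ι ι ℂ) (μ : ℂ)
    (h : r < A.charpoly.rootMultiplicity μ) (s : ℕ) : dd r s A = 0 := by
  have hp : A.charpoly ≠ 0 := (Matrix.charpoly_monic A).ne_zero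
  rw [lt_rootMultiplicity_iff_isRoot_iterate_derivative hp] at h
  rw [dd_zero]
  refine ⟨μ, h 0 (Nat.zero_le _), ?_⟩
  show (qq r s A).eval μ = 0
  unfold qq
  rw [eval_finsetSum]
  refine Finset.sum_eq_zero fun j hj => ?_
  rw [eval_mul]
  have : (derivative^[j] A.charpoly).eval μ = 0 := h j (Finset.mem_Icc.1 hj).2
  rw [this, mul_zero]

theorem herm_pow (B : Matrix ι ι ℂ) (hB : B.IsHermitian) (k : ℕ) (v : ι → ℂ)
    (h : (B ^ k).mulVec v = 0) (hk : 0 < k) : B.mulVec v = 0 := by
  have key : ∀ n : ℕ, ∀ w : ι → ℂ, (B ^ (n + 1)).mulVec w = 0 → B.mulVec w = 0 := by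
    intro n
    induction n with
    | zero => intro w hw; simpa using hw
    | succ n ih =>
      intro w hw
      have h1 : (B ^ (n + 1)).mulVec (B.mulVec w) = 0 := by
        rw [Matrix.mulVec_mulVec, ← pow_succ]
        exact hw
      have h2 := ih _ h1
      rw [Matrix.mulVec_mulVec] at h2
      have h3 : (Matrix.conjTranspose B * B).mulVec w = 0 := by
        rw [hB.eq]
        exact h2
      exact (Matrix.conjTranspose_mul_self_mulVec_eq_zero B w).1 h3
  obtain ⟨n, rfl⟩ : ∃ n, k = n + 1 := ⟨k - 1, by omega⟩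
  exact key n v h

theorem mlt_eq (A : Matrix ι ι ℂ) (hA : A.IsHermitian) (c : ℝ) :
    mlt A c = A.charpoly.rootMultiplicity (c : ℂ) := by
  rw [← Matrix.charpoly_toLin' A, ← LinearMap.finrank_maxGenEigenspace_eq]
  unfold mlt
  have hB : (A - (c : ℂ) • (1 : Matrix ι ι ℂ)).IsHermitian := by
    refine hA.sub ?_
    show Matrix.conjTranspose _ = _
    rw [Matrix.conjTranspose_smul, Matrix.conjTranspose_one]
    congr 1
    exact Complex.conj_ofReal c
  have hT : Matrix.toLin' (A - (c : ℂ) • (1 : Matrix ι ι ℂ)) =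
      Matrix.toLin' A - (c : ℂ) • (1 : Module.End ℂ (ι → ℂ)) := by
    rw [map_sub, map_smul, Matrix.toLin'_one]
    rfl
  have : LinearMap.ker (Matrix.toLin' (A - (c : ℂ) • (1 : Matrix ι ι ℂ))) =
      Module.End.maxGenEigenspace (Matrix.toLin' A) (c : ℂ) := by
    ext v
    rw [Module.End.mem_maxGenEigenspace, LinearMap.mem_ker]
    constructor
    · intro h
      refine ⟨1, ?_⟩
      rw [pow_one, ← hT]
      exact h
    · rintro ⟨k, hk⟩
      rw [← hT, ← Matrix.toLin'_pow, Matrix.toLin'_apply] at hk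
      rw [Matrix.toLin'_apply]
      rcases Nat.eq_zero_or_pos k with h0 | h0
      · subst h0
        rw [pow_zero, Matrix.one_mulVec] at hk
        rw [hk, Matrix.mulVec_zero]
      · exact herm_pow _ hB k v hk h0
  rw [this]

theorem root_real (A : Matrix ι ι ℂ) (hA : A.IsHermitian) (μ : ℂ) (h : A.charpoly.IsRoot μ) :
    ∃ c : ℝ, (c : ℂ) = μ := by
  rw [hA.charpoly_eq] at h
  have h1 : (∏ i, (X - C ((hA.eigenvalues i : ℝ) : ℂ)) : ℂ[X]).eval μ = 0 := h
  rw [eval_prod] at h1
  obtain ⟨i, -, hi⟩ := Finset.prod_eq_zero_iff.1 h1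
  rw [eval_sub, eval_X, eval_C] at hi
  exact ⟨hA.eigenvalues i, (sub_eq_zero.1 hi).symm⟩

theorem herm_iff [Nonempty ι] (r : ℕ) (A : Matrix ι ι ℂ) (hA : A.IsHermitian) :
    (∀ s < Fintype.card ι * r + 1, dd r s A = 0) ↔ ∃ c : ℝ, r < mlt A c := by
  constructor
  · intro h
    obtain ⟨μ, hμ⟩ := all_zero r A h
    have hroot : A.charpoly.IsRoot μ := by
      rw [← rootMultiplicity_pos (Matrix.charpoly_monic A).ne_zero]
      omega
    obtain ⟨c, rfl⟩ := root_real A hA μ hroot
    exact ⟨c, by rw [mlt_eq A hA]; exact hμ⟩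
  · rintro ⟨c, hc⟩ s _
    rw [mlt_eq A hA] at hc
    exact zero_of_mult r A _ hc s

theorem mlt_smul (A : Matrix ι ι ℂ) (y : ℝ) (hy : y ≠ 0) (c : ℝ) :
    mlt ((y : ℂ) • A) (y * c) = mlt A c := by
  unfold mlt
  have : (y : ℂ) • A - ((y * c : ℝ) : ℂ) • (1 : Matrix ι ι ℂ) =
      (y : ℂ) • (A - (c : ℂ) • (1 : Matrix ι ι ℂ)) := by
    rw [smul_sub, smul_smul]
    push_cast
    rfl
  rw [this, map_smul, LinearMap.ker_smul _ _ (by exact_mod_cast hy)]

end gen

theorem t_MULT : S_MULT := by
  intro ι _ _ _ r hr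
  refine ⟨fun A => ((∑ s ∈ Finset.range (Fintype.card ι * r + 1), ‖dd r s A‖ ^ 2 : ℝ) : ℂ),
    ?_, ?_, ?_⟩
  · refine Complex.continuous_ofReal.comp ?_
    refine continuous_finsetSum _ fun s _ => ?_
    exact ((dd_cont r s).norm).pow 2
  · intro A hA
    rw [← herm_iff r A hA]
    rw [Complex.ofReal_eq_zero, Finset.sum_eq_zero_iff_of_nonneg (fun _ _ => by positivity)]
    constructor
    · intro h s hs
      have := h s (Finset.mem_range.2 hs)
      simpa using this
    · intro h s hs
      rw [h s (Finset.mem_range.1 hs)]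
      simp
  · intro h g hh hg hPg
    have hzero : ∀ A : Matrix ι ι ℂ,
        ((∑ s ∈ Finset.range (Fintype.card ι * r + 1), ‖dd r s A‖ ^ 2 : ℝ) : ℂ) = 0 ↔
          ∀ s < Fintype.card ι * r + 1, dd r s A = 0 := by
      intro A
      rw [Complex.ofReal_eq_zero, Finset.sum_eq_zero_iff_of_nonneg (fun _ _ => by positivity)]
      constructor
      · intro h s hs
        have := h s (Finset.mem_range.2 hs)
        simpa using this
      · intro h s hs
        rw [h s (Finset.mem_range.1 hs)]
        simp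
    -- the polynomials
    have hpoly : ∀ (u v : Matrix ι ι ℂ) (s : ℕ) (x : ℂ),
        (dd r s (u.map C + (X : ℂ[X]) • v.map C)).eval x = dd r s (u + x • v) := by
      intro u v s x
      have h1 := dd_map (evalRingHom x) r s (u.map C + (X : ℂ[X]) • v.map C)
      rw [coe_evalRingHom] at h1
      rw [h1]
      congr 1
      ext i j
      simp
      exact mul_comm _ _
    have hex : ∃ s < Fintype.card ι * r + 1, dd r s (h.map C + (X : ℂ[X]) • g.map C) ≠ 0 := by
      by_contra hcon
      push Not at hcon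
      -- all matrices `h + x g` have a large eigenvalue multiplicity
      have h1 : ∀ x : ℝ, ∃ c : ℝ, r < mlt (h + (x : ℂ) • g) c := by
        intro x
        rw [← herm_iff r _ (hh.add (by
          show Matrix.conjTranspose _ = _
          rw [Matrix.conjTranspose_smul, hg.eq]
          congr 1
          exact Complex.conj_ofReal x))]
        intro s hs
        rw [← hpoly, hcon s hs, eval_zero]
      have h2 : ∀ y : ℝ, y ≠ 0 → ∀ s < Fintype.card ι * r + 1, dd r s (g + (y : ℂ) • h) = 0 := by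
        intro y hy
        rw [herm_iff r _ (hg.add (by
          show Matrix.conjTranspose _ = _
          rw [Matrix.conjTranspose_smul, hh.eq]
          congr 1
          exact Complex.conj_ofReal y))]
        obtain ⟨c, hc⟩ := h1 y⁻¹
        refine ⟨y * c, ?_⟩
        have h3 : g + (y : ℂ) • h = (y : ℂ) • (h + ((y⁻¹ : ℝ) : ℂ) • g) := by
          rw [smul_add, smul_smul, ← Complex.ofReal_mul, mul_inv_cancel₀ hy, Complex.ofReal_one,
            one_smul, add_comm]
        rw [h3, mlt_smul _ y hy]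
        exact hc
      apply hPg
      rw [hzero]
      intro s hs
      have h3 : dd r s (g.map C + (X : ℂ[X]) • h.map C) = 0 := by
        refine eq_zero_of_infinite_isRoot _ ?_
        refine Set.Infinite.mono (s := (fun y : ℝ => (y : ℂ)) '' {y : ℝ | y ≠ 0}) ?_ ?_
        · rintro _ ⟨y, hy, rfl⟩
          show (dd r s (g.map C + (X : ℂ[X]) • h.map C)).eval (y : ℂ) = 0
          rw [hpoly]
          exact h2 y hy s hs
        · refine Set.Infinite.image (fun a _ b _ hab => Complex.ofReal_injective hab) ?_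
          have : {y : ℝ | y ≠ 0} = ({0} : Set ℝ)ᶜ := rfl
          rw [this]
          exact (Set.finite_singleton (0 : ℝ)).infinite_compl
      have h4 := hpoly g h s 0
      rw [h3, eval_zero, zero_smul, add_zero] at h4
      exact h4.symm
    obtain ⟨s, hs, hne⟩ := hex
    refine Set.Finite.subset (Set.Finite.preimage (f := fun x : ℝ => (x : ℂ))
      (fun a _ b _ hab => Complex.ofReal_injective hab)
      (finite_setOfPred_isRoot hne)) ?_
    intro x hx
    have hx' := (hzero _).1 hx s hs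
    show (dd r s (h.map C + (X : ℂ[X]) • g.map C)).eval (x : ℂ) = 0
    rw [hpoly]
    exact hx'

end Pool.Agent.H308R2.ZS.T_MULT
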