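import Pool.Agent.H917R2.BP.Stm

set_option autoImplicit false

open scoped ComplexOrder InnerProductSpace ComplexConjugate Topology

noncomputable section

namespace H853R2.BPgns

open H759R2.Kad H710R2.DP H917R2.BP

section abs

variable {K V : Type} [NormedAddCommGroup K] [InnerProductSpace ℂ K] [CompleteSpace K]
  [NormedAddCommGroup V] [InnerProductSpace ℂ V] [CompleteSpace V]

/-- intertwiners -/
def Itw (N : VonNeumannAlgebra K) (π : N.toStarSubalgebra →⋆ₐ[ℂ] BH V) (s : V →L[ℂ] K) : Prop :=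
  ∀ x : N.toStarSubalgebra, s ∘L π x = (x : BH K) ∘L s

variable {N : VonNeumannAlgebra K} {π : N.toStarSubalgebra →⋆ₐ[ℂ] BH V}

theorem itw_adj {s : V →L[ℂ] K} (hs : Itw N π s) (x : N.toStarSubalgebra) :
    π x ∘L ContinuousLinearMap.adjoint s = ContinuousLinearMap.adjoint s ∘L (x : BH K) := by
  have h := congrArg ContinuousLinearMap.adjoint (hs (star x))
  rw [ContinuousLinearMap.adjoint_comp, ContinuousLinearMap.adjoint_comp, map_star,
    ContinuousLinearMap.star_eq_adjoint, ContinuousLinearMap.adjoint_adjoint] at h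
  rw [h]
  congr 1
  show ContinuousLinearMap.adjoint (star (x : BH K)) = (x : BH K)
  rw [ContinuousLinearMap.star_eq_adjoint, ContinuousLinearMap.adjoint_adjoint]

theorem itw_comm {s t : V →L[ℂ] K} (hs : Itw N π s) (ht : Itw N π t) (x : N.toStarSubalgebra) :
    (ContinuousLinearMap.adjoint s ∘L t) * π x = π x * (ContinuousLinearMap.adjoint s ∘L t) := by
  show (ContinuousLinearMap.adjoint s ∘L t) ∘L π x = π x ∘L (ContinuousLinearMap.adjoint s ∘L t)
  rw [ContinuousLinearMap.comp_assoc, ht x, ← ContinuousLinearMap.comp_assoc, ← itw_adj hs x,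
    ContinuousLinearMap.comp_assoc]

theorem itw_left {s : V →L[ℂ] K} (hs : Itw N π s) {g : BH K} (hg : g ∈ N.commutant) :
    Itw N π (g ∘L s) := by
  intro x
  rw [ContinuousLinearMap.comp_assoc, hs x, ← ContinuousLinearMap.comp_assoc,
    ← ContinuousLinearMap.comp_assoc]
  congr 1
  exact (VonNeumannAlgebra.mem_commutant_iff.1 hg x x.2).symm

omit [CompleteSpace V] in
theorem mem_of_comm {N : VonNeumannAlgebra K} {y : BH K} (h : ∀ g ∈ N.commutant, g * y = y * g) :
    y ∈ N := by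
  rw [← VonNeumannAlgebra.commutant_commutant N, VonNeumannAlgebra.mem_commutant_iff]
  exact h

omit [CompleteSpace K] in
theorem gram {ι : Type} (S : Finset ι) (a b d : ι → K) (c : ℝ)
    (h : ∀ i j, ⟪a i, a j⟫_ℂ + ⟪b i, b j⟫_ℂ = (c : ℂ) * ⟪d i, d j⟫_ℂ) :
    ‖∑ i ∈ S, a i‖ ^ 2 + ‖∑ i ∈ S, b i‖ ^ 2 = c * ‖∑ i ∈ S, d i‖ ^ 2 := by
  have key : ∀ f : ι → K, ((‖∑ i ∈ S, f i‖ ^ 2 : ℝ) : ℂ) = ∑ i ∈ S, ∑ j ∈ S, ⟪f i, f j⟫_ℂ := by
    intro f
    have h1 := inner_self_eq_norm_sq_to_K (𝕜 := ℂ) (∑ i ∈ S, f i)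
    rw [sum_inner] at h1
    simp only [inner_sum] at h1
    rw [h1]
    push_cast
    rfl
  have h2 : ((‖∑ i ∈ S, a i‖ ^ 2 + ‖∑ i ∈ S, b i‖ ^ 2 : ℝ) : ℂ) =
      ((c * ‖∑ i ∈ S, d i‖ ^ 2 : ℝ) : ℂ) := by
    rw [Complex.ofReal_add, Complex.ofReal_mul, key, key, key, ← Finset.sum_add_distrib,
      Finset.mul_sum]
    refine Finset.sum_congr rfl fun i _ => ?_
    rw [← Finset.sum_add_distrib, Finset.mul_sum]
    exact Finset.sum_congr rfl fun j _ => h i j
  exact_mod_cast h2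

/-- density from separation -/
theorem dens (hsep : ∀ z ∈ N, (∀ s, Itw N π s → z ∘L s = 0) → z = 0) (z : BH K)
    (hz : ∀ s, Itw N π s → z ∘L s = 0) : z = 0 := by
  obtain ⟨E, hE⟩ : ∃ E : Submodule ℂ K, E = Submodule.span ℂ {w | ∃ s v, Itw N π s ∧ s v = w} :=
    ⟨_, rfl⟩
  have hmem : ∀ s v, Itw N π s → s v ∈ E := by
    intro s v hs
    rw [hE]
    exact Submodule.subset_span ⟨s, v, hs, rfl⟩
  have hinv : ∀ g ∈ N.commutant, ∀ w ∈ E, g w ∈ E := by
    intro g hg w hw
    rw [hE] at hw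
    induction hw using Submodule.span_induction with
    | mem w h =>
      obtain ⟨s, v, hs, rfl⟩ := h
      exact hmem (g ∘L s) v (itw_left hs hg)
    | zero => rw [map_zero]; exact E.zero_mem
    | add x y _ _ hx hy => rw [map_add]; exact E.add_mem hx hy
    | smul c x _ hx => rw [map_smul]; exact E.smul_mem c hx
  have hstar : ∀ g ∈ N.commutant, star g ∈ N.commutant := fun g hg => star_mem hg
  have hinv' : ∀ g ∈ N.commutant, ∀ w ∈ Eᗮ, g w ∈ Eᗮ := by
    intro g hg w hw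
    rw [Submodule.mem_orthogonal] at hw ⊢
    intro u hu
    rw [← ContinuousLinearMap.adjoint_inner_left, ← ContinuousLinearMap.star_eq_adjoint]
    exact hw _ (hinv _ (hstar g hg) u hu)
  obtain ⟨q, hq⟩ : ∃ q : BH K, q = Eᗮ.starProjection := ⟨_, rfl⟩
  have hqc : ∀ g ∈ N.commutant, g * q = q * g := by
    intro g hg
    ext v
    show g (q v) = q (g v)
    rw [hq]
    symm
    refine Submodule.eq_starProjection_of_mem_orthogonal (hinv' g hg _ (Submodule.coe_mem _)) ?_
    rw [Submodule.mem_orthogonal]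
    intro u hu
    rw [← map_sub, ← ContinuousLinearMap.adjoint_inner_left,
      ← ContinuousLinearMap.star_eq_adjoint]
    exact Submodule.starProjection_inner_eq_zero v _ (hinv' _ (hstar g hg) u hu) |>.symm ▸ by
      rw [← inner_conj_symm, Submodule.starProjection_inner_eq_zero v _ (hinv' _ (hstar g hg) u hu),
        map_zero]
  have hqN : q ∈ N := mem_of_comm hqc
  have hq0 : q = 0 := by
    refine hsep q hqN fun s hs => ?_
    ext v
    show q (s v) = 0
    rw [hq, Submodule.starProjection_apply_eq_zero_iff]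
    exact Submodule.le_orthogonal_orthogonal E (hmem s v hs)
  have hE0 : ∀ w ∈ Eᗮ, w = 0 := by
    intro w hw
    have : q w = w := by
      rw [hq]
      exact Submodule.starProjection_eq_self_iff.2 hw
    rw [← this, hq0]
    rfl
  have hz' : star z = 0 := by
    ext u
    refine hE0 _ ?_
    rw [Submodule.mem_orthogonal]
    intro w hw
    rw [hE] at hw
    rw [ContinuousLinearMap.star_eq_adjoint, ContinuousLinearMap.adjoint_inner_right]
    have : z w = 0 := by
      induction hw using Submodule.span_induction with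
      | mem w h =>
        obtain ⟨s, v, hs, rfl⟩ := h
        exact DFunLike.congr_fun (hz s hs) v
      | zero => rw [map_zero]
      | add x y _ _ hx hy => rw [map_add, hx, hy, add_zero]
      | smul c x _ hx => rw [map_smul, hx, smul_zero]
    rw [this, inner_zero_left]
  rw [← star_star z, hz', star_zero]

theorem key (hd : ∀ z : BH K, (∀ s, Itw N π s → z ∘L s = 0) → z = 0) (T : BH V)
    (hT : ∀ A : BH V, (∀ x, A * π x = π x * A) → A * T = T * A) :
    ∃ y : BH K, y ∈ N ∧ ‖y‖ ≤ ‖T‖ ∧ ∀ s, Itw N π s → y ∘L s = s ∘L T := by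
  classical
  obtain ⟨B, hB⟩ : ∃ B : BH V, B = algebraMap ℝ (BH V) (‖T‖ ^ 2) - star T * T := ⟨_, rfl⟩
  have hB0 : 0 ≤ B := by
    rw [hB]
    exact sub_nonneg.2 CStarAlgebra.star_mul_le_algebraMap_norm_sq
  obtain ⟨b, hb⟩ : ∃ b : BH V, b = CFC.sqrt B := ⟨_, rfl⟩
  have hbb : b * b = B := by rw [hb]; exact CFC.sqrt_mul_sqrt_self B hB0
  have hbs : star b = b := by
    rw [hb]
    exact (IsSelfAdjoint.of_nonneg (CFC.sqrt_nonneg B)).star_eq
  -- pairwise identity
  have hpair : ∀ s t : V →L[ℂ] K, Itw N π s → Itw N π t → ∀ v w : V,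
      ⟪s (T v), t (T w)⟫_ℂ + ⟪s (b v), t (b w)⟫_ℂ = ((‖T‖ ^ 2 : ℝ) : ℂ) * ⟪s v, t w⟫_ℂ := by
    intro s t hs ht v w
    obtain ⟨A, hA⟩ : ∃ A : BH V, A = ContinuousLinearMap.adjoint s ∘L t := ⟨_, rfl⟩
    have hA1 : A * T = T * A := by rw [hA]; exact hT _ (itw_comm hs ht)
    have hA2 : A * star T = star T * A := by
      have h1 : (ContinuousLinearMap.adjoint t ∘L s) * T = T * (ContinuousLinearMap.adjoint t ∘L s) :=
        hT _ (itw_comm ht hs)
      have h2 := congrArg star h1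
      rw [star_mul, star_mul] at h2
      have h3 : star (ContinuousLinearMap.adjoint t ∘L s) = A := by
        rw [ContinuousLinearMap.star_eq_adjoint, ContinuousLinearMap.adjoint_comp,
          ContinuousLinearMap.adjoint_adjoint, hA]
      rw [h3] at h2
      exact h2.symm
    have hA3 : Commute B A := by
      rw [hB]
      refine Commute.sub_left ?_ ?_
      · exact Algebra.commutes _ _
      · show star T * T * A = A * (star T * T)
        rw [mul_assoc, ← hA1, ← mul_assoc, ← hA2, mul_assoc]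
    have hA4 : Commute b A := by
      rw [hb]
      exact hA3.cfcₙ_nnreal _
    have e1 : ⟪s (T v), t (T w)⟫_ℂ = ⟪v, (star T * A * T) w⟫_ℂ := by
      show _ = ⟪v, (star T) (A (T w))⟫_ℂ
      rw [ContinuousLinearMap.star_eq_adjoint, ContinuousLinearMap.adjoint_inner_right, hA]
      exact (ContinuousLinearMap.adjoint_inner_right s (T v) (t (T w))).symm
    have e2 : ⟪s (b v), t (b w)⟫_ℂ = ⟪v, (star b * A * b) w⟫_ℂ := by
      show _ = ⟪v, (star b) (A (b w))⟫_ℂ
      rw [ContinuousLinearMap.star_eq_adjoint, ContinuousLinearMap.adjoint_inner_right, hA]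
      exact (ContinuousLinearMap.adjoint_inner_right s (b v) (t (b w))).symm
    have e3 : ⟪s v, t w⟫_ℂ = ⟪v, A w⟫_ℂ := by
      rw [hA]
      exact (ContinuousLinearMap.adjoint_inner_right s v (t w)).symm
    have e4 : star T * A * T + star b * A * b = A * algebraMap ℝ (BH V) (‖T‖ ^ 2) := by
      rw [hbs, hA4.eq, mul_assoc A b b, hbb, ← hA2, mul_assoc A, ← mul_add, hB]
      congr 1
      abel
    rw [e1, e2, e3, ← inner_add_right, ← add_apply, e4]
    have e5 : (A * algebraMap ℝ (BH V) (‖T‖ ^ 2)) w = ((‖T‖ ^ 2 : ℝ) : ℂ) • A w := by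
      show A ((algebraMap ℝ (BH V) (‖T‖ ^ 2)) w) = _
      rw [Algebra.algebraMap_eq_smul_one]
      show A ((‖T‖ ^ 2 : ℝ) • w) = _
      rw [← Complex.coe_smul, map_smul]
    rw [e5, inner_smul_right]
  -- the linear maps
  let e : ({s : V →L[ℂ] K // Itw N π s} →₀ V) →ₗ[ℂ] K :=
    Finsupp.lsum ℂ (fun s => (s.1 : V →ₗ[ℂ] K))
  let f : ({s : V →L[ℂ] K // Itw N π s} →₀ V) →ₗ[ℂ] K :=
    Finsupp.lsum ℂ (fun s => ((s.1 ∘L T : V →L[ℂ] K) : V →ₗ[ℂ] K))
  have he : ∀ c, e c = ∑ s ∈ c.support, s.1 (c s) := fun c => rfl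
  have hf : ∀ c, f c = ∑ s ∈ c.support, s.1 (T (c s)) := fun c => rfl
  have hnorm : ∀ c, ‖f c‖ ≤ ‖T‖ * ‖e c‖ := by
    intro c
    have h1 := gram c.support (fun s => s.1 (T (c s))) (fun s => s.1 (b (c s)))
      (fun s => s.1 (c s)) (‖T‖ ^ 2) (fun s t => hpair s.1 t.1 s.2 t.2 _ _)
    rw [← he, ← hf] at h1
    have h2 : ‖f c‖ ^ 2 ≤ (‖T‖ * ‖e c‖) ^ 2 := by
      rw [mul_pow, ← h1]
      exact le_add_of_nonneg_right (by positivity)
    exact (sq_le_sq₀ (norm_nonneg _) (by positivity)).1 h2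
  have hdense : DenseRange e := by
    have h1 : (LinearMap.range e).topologicalClosure = ⊤ := by
      rw [Submodule.topologicalClosure_eq_top_iff, Submodule.eq_bot_iff]
      intro w hw
      rw [Submodule.mem_orthogonal] at hw
      have h2 := hd ((innerSL ℂ w).smulRight w) (by
        intro s hs
        ext v
        show (innerSL ℂ w (s v)) • w = 0
        have h3 : ⟪s v, w⟫_ℂ = 0 := hw _ ⟨Finsupp.single ⟨s, hs⟩ v, by simp [e]⟩
        rw [innerSL_apply_apply, ← inner_conj_symm, h3, map_zero, zero_smul])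
      have h3 := DFunLike.congr_fun h2 w
      have h4 : ⟪w, w⟫_ℂ • w = 0 := h3
      rcases smul_eq_zero.1 h4 with h5 | h5
      · exact inner_self_eq_zero.1 h5
      · exact h5
    have h2 := Submodule.dense_iff_topologicalClosure_eq_top.2 h1
    rwa [LinearMap.coe_range] at h2
  have hy : ∀ s, Itw N π s → (f.extendOfNorm e) ∘L s = s ∘L T := by
    intro s hs
    ext v
    have h1 := LinearMap.extendOfNorm_eq hdense ⟨‖T‖, hnorm⟩ (Finsupp.single ⟨s, hs⟩ v)
    have h2 : e (Finsupp.single ⟨s, hs⟩ v) = s v := by simp [e]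
    have h3 : f (Finsupp.single ⟨s, hs⟩ v) = s (T v) := by simp [f]
    rw [h2, h3] at h1
    exact h1
  refine ⟨f.extendOfNorm e, ?_, LinearMap.opNorm_extendOfNorm_le hdense (norm_nonneg _) hnorm, hy⟩
  refine mem_of_comm fun g hg => ?_
  refine sub_eq_zero.1 (hd _ fun s hs => ?_)
  have h1 := hy s hs
  have h2 := hy (g ∘L s) (itw_left hs hg)
  rw [ContinuousLinearMap.sub_comp]
  show g ∘L (f.extendOfNorm e) ∘L s - (f.extendOfNorm e) ∘L (g ∘L s) = 0
  rw [h1, h2, ContinuousLinearMap.comp_assoc, sub_self]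

/-- a separating vector is cyclic for the commutant -/
theorem cyc_of_sep (M : VonNeumannAlgebra V) (η : V) (hs : ∀ x ∈ M, x η = 0 → x = 0) (ζ : V)
    (hζ : ∀ x ∈ M.commutant, ⟪ζ, x η⟫_ℂ = 0) : ζ = 0 := by
  obtain ⟨F, hF⟩ : ∃ F : Submodule ℂ V,
      F = Submodule.span ℂ {w | ∃ y' ∈ M.commutant, y' η = w} := ⟨_, rfl⟩
  have hinv : ∀ g ∈ M.commutant, ∀ w ∈ F, g w ∈ F := by
    intro g hg w hw
    rw [hF] at hw
    induction hw using Submodule.span_induction with
    | mem w h =>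
      obtain ⟨y', hy', rfl⟩ := h
      rw [hF]
      exact Submodule.subset_span ⟨g * y', mul_mem hg hy', rfl⟩
    | zero => rw [map_zero]; exact F.zero_mem
    | add x y _ _ hx hy => rw [map_add]; exact F.add_mem hx hy
    | smul c x _ hx => rw [map_smul]; exact F.smul_mem c hx
  have hinv' : ∀ g ∈ M.commutant, ∀ w ∈ Fᗮ, g w ∈ Fᗮ := by
    intro g hg w hw
    rw [Submodule.mem_orthogonal] at hw ⊢
    intro u hu
    rw [← ContinuousLinearMap.adjoint_inner_left, ← ContinuousLinearMap.star_eq_adjoint]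
    exact hw _ (hinv _ (star_mem hg) u hu)
  obtain ⟨q, hq⟩ : ∃ q : BH V, q = Fᗮ.starProjection := ⟨_, rfl⟩
  have hqc : ∀ g ∈ M.commutant, g * q = q * g := by
    intro g hg
    ext1 v
    show g (q v) = q (g v)
    rw [hq]
    symm
    refine Submodule.eq_starProjection_of_mem_orthogonal (hinv' g hg _ (Submodule.coe_mem _)) ?_
    rw [Submodule.mem_orthogonal]
    intro u hu
    rw [← map_sub, ← ContinuousLinearMap.adjoint_inner_left,
      ← ContinuousLinearMap.star_eq_adjoint]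
    rw [← inner_conj_symm, Submodule.starProjection_inner_eq_zero v _
      (hinv' _ (star_mem hg) u hu), map_zero]
  have hqM : q ∈ M := mem_of_comm hqc
  have hqη : q η = 0 := by
    rw [hq, Submodule.starProjection_apply_eq_zero_iff]
    refine Submodule.le_orthogonal_orthogonal F ?_
    rw [hF]
    exact Submodule.subset_span ⟨1, one_mem _, rfl⟩
  have hq0 : q = 0 := hs q hqM hqη
  have hζF : ζ ∈ Fᗮ := by
    rw [Submodule.mem_orthogonal]
    intro w hw
    rw [hF] at hw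
    induction hw using Submodule.span_induction with
    | mem w h =>
      obtain ⟨y', hy', rfl⟩ := h
      rw [← inner_conj_symm, hζ y' hy', map_zero]
    | zero => rw [inner_zero_left]
    | add x y _ _ hx hy => rw [inner_add_left, hx, hy, add_zero]
    | smul c x _ hx => rw [inner_smul_left, hx, mul_zero]
  have : q ζ = ζ := by
    rw [hq]
    exact Submodule.starProjection_eq_self_iff.2 hζF
  rw [← this, hq0]
  rfl

end abs

section conc

variable {K : Type} [NormedAddCommGroup K] [InnerProductSpace ℂ K] [CompleteSpace K] {k : ℕ}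

/-- diagonal operator -/
def Dg (k : ℕ) (x : BH K) : BH (HH (Fin k) K) := opMat fun i j => if i = j then x else 0

omit [CompleteSpace K] in
theorem Dg_apply (x : BH K) (v : HH (Fin k) K) (i : Fin k) : Dg k x v i = x (v i) := by
  unfold Dg
  rw [opMat_apply, Finset.sum_eq_single i]
  · rw [if_pos rfl]
  · intro j _ hj
    rw [if_neg (Ne.symm hj)]
    rfl
  · intro h
    exact absurd (Finset.mem_univ _) h

omit [CompleteSpace K] in
theorem Dg_one : Dg k (1 : BH K) = 1 := by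
  ext v i
  rw [Dg_apply]
  rfl

omit [CompleteSpace K] in
theorem Dg_mul (x y : BH K) : Dg k (x * y) = Dg k x * Dg k y := by
  ext v i
  rw [Dg_apply]
  show _ = Dg k x (Dg k y v) i
  rw [Dg_apply, Dg_apply]
  rfl

omit [CompleteSpace K] in
theorem Dg_add (x y : BH K) : Dg k (x + y) = Dg k x + Dg k y := by
  ext v i
  rw [Dg_apply]
  show _ = Dg k x v i + Dg k y v i
  rw [Dg_apply, Dg_apply]
  rfl

omit [CompleteSpace K] in
theorem Dg_smul (c : ℂ) (x : BH K) : Dg k (c • x) = c • Dg k x := by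
  ext v i
  rw [Dg_apply]
  show _ = c • Dg k x v i
  rw [Dg_apply]
  rfl

theorem Dg_star (x : BH K) : Dg k (star x) = star (Dg k x) := by
  unfold Dg
  rw [opMat_star]
  congr 1
  funext i j
  by_cases h : i = j
  · subst h
    simp
  · rw [if_neg h, if_neg (Ne.symm h), star_zero]

/-- the vector -/
def Om (ξ : Fin k → K) : HH (Fin k) K := WithLp.toLp 2 ξ

/-- the GNS space -/
def GV (N : VonNeumannAlgebra K) (ξ : Fin k → K) : Submodule ℂ (HH (Fin k) K) :=
  (Submodule.span ℂ (Set.range fun x : N.toStarSubalgebra =>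
    Dg k (x : BH K) (Om ξ))).topologicalClosure

instance gv_complete (N : VonNeumannAlgebra K) (ξ : Fin k → K) : CompleteSpace (GV N ξ) :=
  (Submodule.isClosed_topologicalClosure _).completeSpace_coe

theorem gv_mem (N : VonNeumannAlgebra K) (ξ : Fin k → K) (x : N.toStarSubalgebra) :
    Dg k (x : BH K) (Om ξ) ∈ GV N ξ :=
  Submodule.le_topologicalClosure _ (Submodule.subset_span ⟨x, rfl⟩)

theorem om_mem (N : VonNeumannAlgebra K) (ξ : Fin k → K) : Om ξ ∈ GV N ξ := by
  have h := gv_mem N ξ 1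
  have h1 : Dg k ((1 : N.toStarSubalgebra) : BH K) (Om ξ) = Om ξ := by
    show Dg k (1 : BH K) (Om ξ) = Om ξ
    rw [Dg_one]
    rfl
  rwa [h1] at h

theorem gv_inv (N : VonNeumannAlgebra K) (ξ : Fin k → K) (x : N.toStarSubalgebra)
    (v : HH (Fin k) K) (hv : v ∈ GV N ξ) : Dg k (x : BH K) v ∈ GV N ξ := by
  refine map_mem_closure (Dg k (x : BH K)).continuous hv ?_
  intro w hw
  have hw' : w ∈ Submodule.span ℂ (Set.range fun x : N.toStarSubalgebra =>
    Dg k (x : BH K) (Om ξ)) := hw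
  show Dg k (x : BH K) w ∈ Submodule.span ℂ (Set.range fun x : N.toStarSubalgebra =>
    Dg k (x : BH K) (Om ξ))
  induction hw' using Submodule.span_induction with
  | mem w h =>
    obtain ⟨y, rfl⟩ := h
    refine Submodule.subset_span ⟨x * y, ?_⟩
    show Dg k ((x : BH K) * (y : BH K)) (Om ξ) = _
    rw [Dg_mul]
    rfl
  | zero => rw [map_zero]; exact Submodule.zero_mem _
  | add a b _ _ ha hb => rw [map_add]; exact Submodule.add_mem _ (ha ‹_›) (hb ‹_›)
  | smul c a _ ha => rw [map_smul]; exact Submodule.smul_mem _ c (ha ‹_›)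

/-- the representation -/
def gp (N : VonNeumannAlgebra K) (ξ : Fin k → K) : N.toStarSubalgebra →⋆ₐ[ℂ] BH (GV N ξ) where
  toFun x := ((Dg k (x : BH K)) ∘L (GV N ξ).subtypeL).codRestrict (GV N ξ)
    (fun v => gv_inv N ξ x v v.2)
  map_one' := by
    ext1 v
    apply Subtype.ext
    show Dg k ((1 : N.toStarSubalgebra) : BH K) (v : HH (Fin k) K) = v
    show Dg k (1 : BH K) (v : HH (Fin k) K) = v
    rw [Dg_one]
    rfl
  map_mul' x y := by
    ext1 v
    apply Subtype.ext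
    show Dg k ((x : BH K) * (y : BH K)) (v : HH (Fin k) K) = Dg k (x : BH K) (Dg k (y : BH K) v)
    rw [Dg_mul]
    rfl
  map_zero' := by
    ext1 v
    apply Subtype.ext
    show Dg k (0 : BH K) (v : HH (Fin k) K) = 0
    ext i
    rw [Dg_apply]
    rfl
  map_add' x y := by
    ext1 v
    apply Subtype.ext
    show Dg k ((x : BH K) + (y : BH K)) (v : HH (Fin k) K) =
      Dg k (x : BH K) v + Dg k (y : BH K) v
    rw [Dg_add]
    rfl
  commutes' c := by
    ext1 v
    apply Subtype.ext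
    show Dg k (algebraMap ℂ (BH K) c) (v : HH (Fin k) K) = c • (v : HH (Fin k) K)
    rw [Algebra.algebraMap_eq_smul_one, Dg_smul, Dg_one]
    rfl
  map_star' x := by
    rw [ContinuousLinearMap.star_eq_adjoint, ContinuousLinearMap.eq_adjoint_iff]
    intro v w
    show ⟪Dg k (star (x : BH K)) (v : HH (Fin k) K), (w : HH (Fin k) K)⟫_ℂ =
      ⟪(v : HH (Fin k) K), Dg k (x : BH K) w⟫_ℂ
    rw [Dg_star, ContinuousLinearMap.star_eq_adjoint, ContinuousLinearMap.adjoint_inner_left]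

theorem gp_apply (N : VonNeumannAlgebra K) (ξ : Fin k → K) (x : N.toStarSubalgebra)
    (v : GV N ξ) (i : Fin k) : (gp N ξ x v : HH (Fin k) K) i = (x : BH K) ((v : HH (Fin k) K) i) :=
  Dg_apply _ _ _

/-- coordinates -/
def sc (N : VonNeumannAlgebra K) (ξ : Fin k → K) (i : Fin k) : GV N ξ →L[ℂ] K :=
  (PiLp.proj 2 (fun _ : Fin k => K) i : HH (Fin k) K →L[ℂ] K) ∘L (GV N ξ).subtypeL

theorem sc_apply (N : VonNeumannAlgebra K) (ξ : Fin k → K) (i : Fin k) (v : GV N ξ) :
    sc N ξ i v = (v : HH (Fin k) K) i := rfl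

theorem sc_itw (N : VonNeumannAlgebra K) (ξ : Fin k → K) (i : Fin k) :
    Itw N (gp N ξ) (sc N ξ i) := by
  intro x
  ext v
  exact gp_apply N ξ x v i

theorem gsep (N : VonNeumannAlgebra K) (ξ : Fin k → K)
    (hsep : ∀ x ∈ N, (∀ i, x (ξ i) = 0) → x = 0) (z : BH K)
    (hz : ∀ s, Itw N (gp N ξ) s → z ∘L s = 0) : z = 0 := by
  refine dens (N := N) (π := gp N ξ) (fun y hy h => hsep y hy fun i => ?_) z hz
  exact DFunLike.congr_fun (h _ (sc_itw N ξ i)) (⟨Om ξ, om_mem N ξ⟩ : GV N ξ)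

theorem gkey (N : VonNeumannAlgebra K) (ξ : Fin k → K)
    (hsep : ∀ x ∈ N, (∀ i, x (ξ i) = 0) → x = 0) (T : BH (GV N ξ))
    (hT : ∀ A : BH (GV N ξ), (∀ x, A * gp N ξ x = gp N ξ x * A) → A * T = T * A) :
    ∃ x : N.toStarSubalgebra, gp N ξ x = T ∧ ‖(x : BH K)‖ ≤ ‖T‖ := by
  obtain ⟨y, hy, hyn, hyT⟩ := key (gsep N ξ hsep) T hT
  refine ⟨⟨y, hy⟩, ?_, hyn⟩
  ext1 v
  apply Subtype.ext
  ext i
  rw [gp_apply]
  exact DFunLike.congr_fun (hyT _ (sc_itw N ξ i)) v

/-- the von Neumann algebra -/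
def GM (N : VonNeumannAlgebra K) (ξ : Fin k → K)
    (hsep : ∀ x ∈ N, (∀ i, x (ξ i) = 0) → x = 0) : VonNeumannAlgebra (GV N ξ) where
  toStarSubalgebra := (gp N ξ).range
  centralizer_centralizer' := by
    apply Set.Subset.antisymm
    · intro T hT
      obtain ⟨x, hx, -⟩ := gkey N ξ hsep T (by
        intro A hA
        refine (Set.mem_centralizer_iff.1 hT A ?_)
        rw [Set.mem_centralizer_iff]
        rintro _ ⟨x, rfl⟩
        exact (hA x).symm)
      exact ⟨x, hx⟩
    · exact Set.subset_centralizer_centralizer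

theorem mem_GM (N : VonNeumannAlgebra K) (ξ : Fin k → K)
    (hsep : ∀ x ∈ N, (∀ i, x (ξ i) = 0) → x = 0) (y : BH (GV N ξ)) :
    y ∈ GM N ξ hsep ↔ ∃ x, gp N ξ x = y := Iff.rfl

end conc

theorem t_gns : S_gns := by
  intro K _ _ _ N k ξ hξ hsep
  obtain ⟨η, hη⟩ : ∃ η : GV N ξ, η = ⟨Om ξ, om_mem N ξ⟩ := ⟨_, rfl⟩
  have hηi : ∀ i, (η : HH (Fin k) K) i = ξ i := by
    intro i
    rw [hη]
    rfl
  -- separating
  have hs : ∀ x : N.toStarSubalgebra, gp N ξ x η = 0 → x = 0 := by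
    intro x hx
    apply Subtype.ext
    refine hsep _ x.2 fun i => ?_
    rw [← hηi, ← gp_apply, hx]
    rfl
  -- cyclic
  have hc : ∀ ζ : GV N ξ, (∀ x : N.toStarSubalgebra, ⟪ζ, gp N ξ x η⟫_ℂ = 0) → ζ = 0 := by
    intro ζ hζ
    have h1 : ∀ w ∈ GV N ξ, ⟪(ζ : HH (Fin k) K), w⟫_ℂ = 0 := by
      intro w hw
      have h2 : IsClosed {w : HH (Fin k) K | ⟪(ζ : HH (Fin k) K), w⟫_ℂ = 0} :=
        isClosed_eq (by fun_prop) continuous_const
      refine h2.closure_subset_iff.2 ?_ hw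
      intro w hw
      have hw' : w ∈ Submodule.span ℂ (Set.range fun x : N.toStarSubalgebra =>
        Dg k (x : BH K) (Om ξ)) := hw
      show ⟪(ζ : HH (Fin k) K), w⟫_ℂ = 0
      induction hw' using Submodule.span_induction with
      | mem w h =>
        obtain ⟨x, rfl⟩ := h
        have h3 := hζ x
        rw [hη] at h3
        exact h3
      | zero => rw [inner_zero_right]
      | add a b _ _ ha hb => rw [inner_add_right, ha ‹_›, hb ‹_›, add_zero]
      | smul c a _ ha => rw [inner_smul_right, ha ‹_›, mul_zero]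
    apply Subtype.ext
    exact inner_self_eq_zero.1 (h1 _ ζ.2)
  have hnorm : ‖η‖ = 1 := by
    have h1 : ‖η‖ ^ 2 = 1 := by
      show ‖(η : HH (Fin k) K)‖ ^ 2 = 1
      rw [PiLp.norm_sq_eq_of_L2]
      simp only [hηi]
      exact hξ
    nlinarith [norm_nonneg η]
  have hbd : ∀ x : N.toStarSubalgebra, ‖gp N ξ x‖ ≤ ‖(x : BH K)‖ := by
    intro x
    refine ContinuousLinearMap.opNorm_le_bound _ (norm_nonneg _) fun v => ?_
    have h1 : ‖gp N ξ x v‖ ^ 2 ≤ (‖(x : BH K)‖ * ‖v‖) ^ 2 := by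
      rw [mul_pow]
      show ‖(gp N ξ x v : HH (Fin k) K)‖ ^ 2 ≤ ‖(x : BH K)‖ ^ 2 * ‖(v : HH (Fin k) K)‖ ^ 2
      rw [PiLp.norm_sq_eq_of_L2, PiLp.norm_sq_eq_of_L2, Finset.mul_sum]
      refine Finset.sum_le_sum fun i _ => ?_
      rw [gp_apply, ← mul_pow]
      exact pow_le_pow_left₀ (norm_nonneg _) ((x : BH K).le_opNorm _) 2
    exact (sq_le_sq₀ (norm_nonneg _) (by positivity)).1 h1
  refine ⟨GV N ξ, inferInstance, inferInstance, inferInstance, GM N ξ hsep, η, gp N ξ,
    ⟨hnorm, ?_, ?_, ?_, ?_⟩, mem_GM N ξ hsep, ?_, ?_⟩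
  · rintro _ ⟨x, rfl⟩ hx
    show gp N ξ x = 0
    rw [hs x hx, map_zero]
  · intro ζ hζ
    exact hc ζ fun x => hζ _ ⟨x, rfl⟩
  · intro y' hy' h0
    have h1 : ∀ x : N.toStarSubalgebra, y' (gp N ξ x η) = 0 := by
      intro x
      have h2 := VonNeumannAlgebra.mem_commutant_iff.1 hy' (gp N ξ x) ⟨x, rfl⟩
      have h3 := DFunLike.congr_fun h2 η
      have h4 : gp N ξ x (y' η) = y' (gp N ξ x η) := h3
      rw [← h4, h0, map_zero]
    have h2 : star y' = 0 := by
      ext1 u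
      refine hc _ fun x => ?_
      rw [ContinuousLinearMap.star_eq_adjoint, ContinuousLinearMap.adjoint_inner_left, h1,
        inner_zero_right]
    rw [← star_star y', h2, star_zero]
  · refine cyc_of_sep (GM N ξ hsep) η ?_
    rintro _ ⟨x, rfl⟩ hx
    show gp N ξ x = 0
    rw [hs x hx, map_zero]
  · intro x y
    show ⟪(gp N ξ x η : HH (Fin k) K), (gp N ξ y η : HH (Fin k) K)⟫_ℂ = _
    rw [PiLp.inner_apply]
    refine Finset.sum_congr rfl fun i _ => ?_
    rw [gp_apply, gp_apply, hηi]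
  · intro x
    refine le_antisymm (hbd x) ?_
    obtain ⟨y, hy, hyn⟩ := gkey N ξ hsep (gp N ξ x) (fun A hA => hA x)
    have hxy : y = x := by
      refine sub_eq_zero.1 (hs (y - x) ?_)
      rw [map_sub, hy, sub_self]
      rfl
    rw [← hxy]
    rw [hxy] at hyn ⊢
    exact hyn

end H853R2.BPgns
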